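import Pool.Agent.helper16.EXC.Spec3

set_option autoImplicit false

open Finset

namespace Pool.Agent.EXC

/-- the fixed field -/
def ZNR_fix {F : Type} [Field F] (σ : F ≃+* F) : Subfield F where
  carrier := {x | σ x = x}
  mul_mem' := by
    intro a b ha hb
    simp only [Set.mem_ofPred_eq] at *
    rw [map_mul, ha, hb]
  one_mem' := by simp
  add_mem' := by
    intro a b ha hb
    simp only [Set.mem_ofPred_eq] at *
    rw [map_add, ha, hb]
  zero_mem' := by simp
  neg_mem' := by
    intro a ha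
    simp only [Set.mem_ofPred_eq] at *
    rw [map_neg, ha]
  inv_mem' := by
    intro a ha
    simp only [Set.mem_ofPred_eq] at *
    rw [map_inv₀, ha]

theorem ZNR_mem {F : Type} [Field F] (σ : F ≃+* F) (x : F) : x ∈ ZNR_fix σ ↔ σ x = x := Iff.rfl

open Polynomial in
theorem ZNR_quad (K : Type) [Field K] [Fintype K] (h2 : ringChar K ≠ 2) (a c : K) (ha : a ≠ 0) :
    ∃ p r : K, p ^ 2 - a * r ^ 2 = c := by
  have hodd := FiniteField.odd_card_of_char_ne_two h2
  have hf : (X ^ 2 : K[X]).degree = 2 := by rw [degree_X_pow]; rfl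
  have hg : (C (-a) * X ^ 2 + C (-c) : K[X]).degree = 2 := by
    have : (C (-a) * X ^ 2 + C (-c) : K[X]) = C (-a) * X ^ 2 + C 0 * X + C (-c) := by simp
    rw [this, degree_quadratic (neg_ne_zero.2 ha)]
  obtain ⟨p, r, h⟩ := FiniteField.exists_root_sum_quadratic hf hg hodd
  refine ⟨p, r, ?_⟩
  simp only [eval_pow, eval_X, eval_add, eval_mul, eval_C] at h
  linear_combination h

theorem ZNR : ZNR_stmt := by
  intro F _ _ σ hσ hne c hc hsc
  by_cases h2 : (2 : F) = 0
  · have hch : CharP F 2 := by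
      apply CharTwo.of_one_ne_zero_of_two_eq_zero one_ne_zero
      exact_mod_cast h2
    have := Fintype.ofFinite F
    obtain ⟨w, hw⟩ := FiniteField.isSquare_of_char_two (CharP.eq F (ringChar.charP F) hch) c
    have h1 : σ w = w := by
      have h3 : (σ w - w) * (σ w - w) = 0 := by
        have h4 : σ w * σ w = w * w := by rw [← map_mul, ← hw, hsc]
        linear_combination h4 + (w * w - w * σ w) * h2
      have h5 := mul_self_eq_zero.1 h3
      exact sub_eq_zero.1 h5
    refine ⟨w, ?_, by rw [h1, ← hw]⟩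
    rintro rfl
    exact hc (by rw [hw, mul_zero])
  · obtain ⟨y, hy⟩ := hne
    have he : y - σ y ≠ 0 := sub_ne_zero.2 fun h => hy h.symm
    have hse : σ (y - σ y) = -(y - σ y) := by rw [map_sub, hσ]; ring
    set e := y - σ y
    have ha : e ^ 2 ∈ ZNR_fix σ := by
      rw [ZNR_mem, map_pow, hse]; ring
    have hcm : c ∈ ZNR_fix σ := hsc
    have := Fintype.ofFinite (ZNR_fix σ)
    have hch : ringChar (ZNR_fix σ) ≠ 2 := by
      intro h
      have h3 : ((2 : ℕ) : ZNR_fix σ) = 0 := by
        rw [← h]; exact ringChar.Nat.cast_ringChar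
      have h4 := congrArg (ZNR_fix σ).subtype h3
      rw [map_natCast, map_zero] at h4
      exact h2 (by exact_mod_cast h4)
    obtain ⟨p, r, h⟩ := ZNR_quad (ZNR_fix σ) hch ⟨e ^ 2, ha⟩ ⟨c, hcm⟩ (by
      intro h
      exact pow_ne_zero 2 he (congrArg (fun x : ZNR_fix σ => (x : F)) h))
    have h5 : (p : F) ^ 2 - e ^ 2 * (r : F) ^ 2 = c := by
      have := congrArg (fun x : ZNR_fix σ => (x : F)) h
      simpa using this
    have hp : σ (p : F) = p := p.2
    have hr : σ (r : F) = r := r.2
    have h6 : ((p : F) + r * e) * σ ((p : F) + r * e) = c := by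
      rw [map_add, map_mul, hp, hr, hse, ← h5]
      ring
    refine ⟨(p : F) + r * e, ?_, h6⟩
    intro h0
    rw [h0, zero_mul] at h6
    exact hc h6.symm

end Pool.Agent.EXC
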